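import Mathlib

/-!
# Number of square roots of `-n` modulo `D / e²`, summed over `e`
-/

set_option autoImplicit false

namespace Pool.Agent.Y155.Z7

open Finset ArithmeticFunction

/-- the number of solutions of `x² + n = 0` modulo `m` -/
noncomputable def R (n m : ℕ) : ℕ := Nat.card {x : ZMod m // x ^ 2 + (n : ZMod m) = 0}

theorem R_zero {n : ℕ} (hn : 0 < n) : R n 0 = 0 := by
  unfold R
  have : IsEmpty {x : ZMod 0 // x ^ 2 + (n : ZMod 0) = 0} := by
    have key : ∀ y : ℤ, ¬ (y ^ 2 + (n : ℤ) = 0) := by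
      intro y hy
      have h2 : (0 : ℤ) < n := by exact_mod_cast hn
      nlinarith [sq_nonneg y]
    exact ⟨fun x => key x.1 x.2⟩
  exact Nat.card_of_isEmpty

theorem R_one (n : ℕ) : R n 1 = 1 := by
  unfold R
  rw [Nat.card_eq_one_iff_unique]
  refine ⟨⟨fun a b => Subtype.ext (Subsingleton.elim _ _)⟩, ⟨⟨0, Subsingleton.elim _ _⟩⟩⟩

theorem R_mul (n : ℕ) {a b : ℕ} (h : a.Coprime b) : R n (a * b) = R n a * R n b := by
  unfold R
  rw [← Nat.card_prod]
  refine Nat.card_congr (Equiv.trans ?_ (Equiv.subtypeProdEquivProd (p := fun x : ZMod a =>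
    x ^ 2 + (n : ZMod a) = 0) (q := fun x : ZMod b => x ^ 2 + (n : ZMod b) = 0)))
  refine Equiv.subtypeEquiv (ZMod.chineseRemainder h).toEquiv fun x => ?_
  have h1 : x ^ 2 + (n : ZMod (a * b)) = 0 ↔ ZMod.chineseRemainder h (x ^ 2 + n) = 0 :=
    (map_eq_zero_iff _ (ZMod.chineseRemainder h).injective).symm
  rw [h1, map_add, map_pow, map_natCast, Prod.ext_iff]
  rfl

/-- the number of solutions as the number of residues -/
theorem R_eq (n m : ℕ) (hm : 0 < m) : R n m = ((range m).filter fun x => m ∣ x ^ 2 + n).card := by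
  classical
  have : NeZero m := ⟨hm.ne'⟩
  unfold R
  rw [Nat.card_eq_fintype_card, Fintype.card_subtype]
  refine (Finset.card_nbij' (fun x : ℕ => (x : ZMod m)) (fun x : ZMod m => x.val) ?_ ?_ ?_ ?_).symm
  · intro x hx
    have hx := Finset.mem_filter.1 (Finset.mem_coe.1 hx)
    refine Finset.mem_coe.2 (Finset.mem_filter.2 ⟨Finset.mem_univ _, ?_⟩)
    have := (ZMod.natCast_eq_zero_iff (x ^ 2 + n) m).2 hx.2
    push_cast at this
    exact this
  · intro x hx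
    have hx := Finset.mem_filter.1 (Finset.mem_coe.1 hx)
    refine Finset.mem_coe.2 (Finset.mem_filter.2 ⟨Finset.mem_range.2 (ZMod.val_lt x), ?_⟩)
    refine (ZMod.natCast_eq_zero_iff _ m).1 ?_
    push_cast
    rw [ZMod.natCast_zmod_val]
    exact hx.2
  · intro x hx
    exact ZMod.val_cast_of_lt (Finset.mem_range.1 (Finset.mem_filter.1 (Finset.mem_coe.1 hx)).1)
  · intro x _
    exact ZMod.natCast_zmod_val x

/-- the number of square roots of an integer modulo an odd prime -/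
theorem card_sq (l : ℕ) [Fact l.Prime] (hl : l ≠ 2) (a : ℤ) :
    (Nat.card {x : ZMod l // x ^ 2 = (a : ZMod l)} : ℤ) = 1 + jacobiSym a l := by
  have h := legendreSym.card_sqrts l hl a
  rw [jacobiSym.legendreSym.to_jacobiSym, add_comm] at h
  rw [← h]
  congr 1
  rw [Set.toFinset_card, Nat.card_eq_fintype_card]
  exact Fintype.card_congr (Equiv.refl _)

theorem R_prime (l : ℕ) (hp : l.Prime) (hl : l ≠ 2) (n : ℕ) :
    (R n l : ℤ) = 1 + jacobiSym (-(n : ℤ)) l := by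
  have : Fact l.Prime := ⟨hp⟩
  rw [← card_sq l hl]
  unfold R
  congr 1
  refine Nat.card_congr (Equiv.subtypeEquivRight fun x => ?_)
  push_cast
  exact eq_neg_iff_add_eq_zero.symm

/-- Hensel's lemma for `x² + n` -/
theorem R_succ (l : ℕ) (hp : l.Prime) (hl : l ≠ 2) (n : ℕ) (hn : ¬ l ∣ n) (k : ℕ) :
    R n (l ^ (k + 1 + 1)) = R n (l ^ (k + 1)) := by
  have hlZ : Prime (l : ℤ) := Nat.prime_iff_prime_int.1 hp
  have p1 : 0 < l ^ (k + 1) := pow_pos hp.pos _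
  have p2 : 0 < l ^ (k + 1 + 1) := pow_pos hp.pos _
  have hnx : ∀ x : ℤ, (l : ℤ) ∣ x ^ 2 + n → ¬ (l : ℤ) ∣ 2 * x := by
    intro x hx h2
    rcases hlZ.dvd_or_dvd h2 with h3 | h3
    · have := Int.natCast_dvd_natCast.1 (show (l : ℤ) ∣ ((2 : ℕ) : ℤ) from h3)
      rcases (Nat.dvd_prime Nat.prime_two).1 this with h4 | h4
      · exact hp.one_lt.ne' h4
      · exact hl h4
    · have h4 : (l : ℤ) ∣ (n : ℤ) := by
        have := Int.dvd_sub hx (Dvd.dvd.mul_left h3 x)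
        have e : x ^ 2 + (n : ℤ) - x * x = n := by ring
        rwa [e] at this
      exact hn (Int.natCast_dvd_natCast.1 h4)
  rw [R_eq n _ p1, R_eq n _ p2]
  refine Finset.card_nbij (fun x => x % l ^ (k + 1)) ?_ ?_ ?_
  · intro x hx
    have hx := Finset.mem_filter.1 (Finset.mem_coe.1 hx)
    refine Finset.mem_coe.2 (Finset.mem_filter.2 ⟨Finset.mem_range.2 (Nat.mod_lt _ p1), ?_⟩)
    have h1 : l ^ (k + 1) ∣ x ^ 2 + n := (pow_dvd_pow l (Nat.le_succ _)).trans hx.2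
    have h2 : (x % l ^ (k + 1)) ^ 2 + n ≡ x ^ 2 + n [MOD l ^ (k + 1)] :=
      Nat.ModEq.add_right _ ((Nat.mod_modEq _ _).pow 2)
    exact (Nat.modEq_zero_iff_dvd.1 (h2.trans (Nat.modEq_zero_iff_dvd.2 h1)))
  · intro x hx y hy hxy
    have hx := Finset.mem_filter.1 (Finset.mem_coe.1 hx)
    have hy := Finset.mem_filter.1 (Finset.mem_coe.1 hy)
    have h1 : ((l ^ (k + 1) : ℕ) : ℤ) ∣ (y : ℤ) - x := (Nat.modEq_iff_dvd.1 (show x ≡ y [MOD _] from hxy))
    have hx2 : ((l ^ (k + 1 + 1) : ℕ) : ℤ) ∣ ((x ^ 2 + n : ℕ) : ℤ) := Int.natCast_dvd_natCast.2 hx.2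
    have hy2 : ((l ^ (k + 1 + 1) : ℕ) : ℤ) ∣ ((y ^ 2 + n : ℕ) : ℤ) := Int.natCast_dvd_natCast.2 hy.2
    push_cast at h1 hx2 hy2
    have h3 : (l : ℤ) ^ (k + 1 + 1) ∣ ((y : ℤ) - x) * ((y : ℤ) + x) := by
      have := Int.dvd_sub hy2 hx2
      have e : ((y : ℤ) ^ 2 + n) - ((x : ℤ) ^ 2 + n) = ((y : ℤ) - x) * ((y : ℤ) + x) := by ring
      rwa [e] at this
    have hl1 : (l : ℤ) ∣ (l : ℤ) ^ (k + 1) := dvd_pow_self _ (Nat.succ_ne_zero _)
    have hl2 : (l : ℤ) ∣ (l : ℤ) ^ (k + 1 + 1) := dvd_pow_self _ (Nat.succ_ne_zero _)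
    have h4 : ¬ (l : ℤ) ∣ (y : ℤ) + x := by
      intro h5
      refine hnx x (hl2.trans hx2) ?_
      have := Int.dvd_sub h5 (hl1.trans h1)
      have e : ((y : ℤ) + x) - (y - x) = 2 * x := by ring
      rwa [e] at this
    have h5 : IsCoprime ((l : ℤ) ^ (k + 1 + 1)) ((y : ℤ) + x) :=
      IsCoprime.pow_left ((Prime.coprime_iff_not_dvd hlZ).2 h4)
    have h6 : (l : ℤ) ^ (k + 1 + 1) ∣ (y : ℤ) - x := h5.dvd_of_dvd_mul_right h3
    have h7 : x ≡ y [MOD l ^ (k + 1 + 1)] := by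
      refine Nat.modEq_iff_dvd.2 ?_
      push_cast
      exact h6
    have h8 := h7
    rw [Nat.ModEq, Nat.mod_eq_of_lt (Finset.mem_range.1 hx.1),
      Nat.mod_eq_of_lt (Finset.mem_range.1 hy.1)] at h8
    exact h8
  · intro y hy
    have hy := Finset.mem_filter.1 (Finset.mem_coe.1 hy)
    have hy2 : ((l ^ (k + 1) : ℕ) : ℤ) ∣ ((y ^ 2 + n : ℕ) : ℤ) := Int.natCast_dvd_natCast.2 hy.2
    push_cast at hy2
    obtain ⟨c, hc⟩ := hy2
    have hl1 : (l : ℤ) ∣ (l : ℤ) ^ (k + 1) := dvd_pow_self _ (Nat.succ_ne_zero _)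
    have h1 : ¬ (l : ℤ) ∣ 2 * (y : ℤ) := hnx y (hl1.trans ⟨c, hc⟩)
    obtain ⟨u, v, huv⟩ := (Prime.coprime_iff_not_dvd hlZ).2 h1
    have p3 : ((l ^ (k + 1 + 1) : ℕ) : ℤ) ≠ 0 := by exact_mod_cast p2.ne'
    set w : ℤ := (y + (-(c * v)) * (l : ℤ) ^ (k + 1)) with hw
    have h2 : (l : ℤ) ^ (k + 1 + 1) ∣ w ^ 2 + n := by
      refine ⟨c * u + (c * v) ^ 2 * (l : ℤ) ^ k, ?_⟩
      have e : (l : ℤ) ^ (k + 1 + 1) = (l : ℤ) ^ (k + 1) * l := pow_succ _ _
      have e' : (l : ℤ) ^ (k + 1) = (l : ℤ) ^ k * l := pow_succ _ _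
      rw [hw, e]
      have : ((y : ℤ) + (-(c * v)) * (l : ℤ) ^ (k + 1)) ^ 2 + n = ((y : ℤ) ^ 2 + n) -
        (l : ℤ) ^ (k + 1) * c * (v * (2 * y)) + (c * v) ^ 2 * ((l : ℤ) ^ (k + 1)) ^ 2 := by ring
      rw [this, hc]
      have h9 : v * (2 * (y : ℤ)) = 1 - u * l := by linarith
      rw [h9]
      nth_rewrite 3 [e']
      nth_rewrite 2 [e']
      ring
    have hnn : (0 : ℤ) ≤ w % ((l ^ (k + 1 + 1) : ℕ) : ℤ) := Int.emod_nonneg _ p3
    have hlt : w % ((l ^ (k + 1 + 1) : ℕ) : ℤ) < ((l ^ (k + 1 + 1) : ℕ) : ℤ) :=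
      Int.emod_lt_of_pos _ (by exact_mod_cast p2)
    obtain ⟨r, hz⟩ : ∃ r : ℕ, (r : ℤ) = w % ((l ^ (k + 1 + 1) : ℕ) : ℤ) :=
      ⟨_, Int.toNat_of_nonneg hnn⟩
    have h3 : (r : ℤ) ≡ w [ZMOD ((l ^ (k + 1 + 1) : ℕ) : ℤ)] := by
      rw [hz]
      exact Int.mod_modEq _ _
    refine ⟨r, Finset.mem_coe.2 (Finset.mem_filter.2 ⟨Finset.mem_range.2 ?_, ?_⟩), ?_⟩
    · have : (r : ℤ) < ((l ^ (k + 1 + 1) : ℕ) : ℤ) := by
        rw [hz]; exact hlt
      exact_mod_cast this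
    · refine Int.natCast_dvd_natCast.1 ?_
      have h4 := (h3.pow 2).add_right (n : ℤ)
      have h5 : w ^ 2 + (n : ℤ) ≡ 0 [ZMOD ((l ^ (k + 1 + 1) : ℕ) : ℤ)] := by
        refine Int.modEq_zero_iff_dvd.2 ?_
        push_cast
        exact h2
      have h6 := Int.modEq_zero_iff_dvd.1 (h4.trans h5)
      push_cast at h6
      push_cast
      exact h6
    · have h4 : (r : ℤ) ≡ w [ZMOD ((l ^ (k + 1) : ℕ) : ℤ)] := by
        refine Int.ModEq.of_dvd ?_ h3
        exact_mod_cast pow_dvd_pow l (Nat.le_succ _)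
      have h5 : w ≡ y [ZMOD ((l ^ (k + 1) : ℕ) : ℤ)] := by
        refine (Int.modEq_iff_dvd.2 ⟨c * v, ?_⟩)
        rw [hw]
        push_cast
        ring
      have h7 : r ≡ y [MOD l ^ (k + 1)] := (Int.natCast_modEq_iff).1 (h4.trans h5)
      change r % l ^ (k + 1) = y
      rw [h7, Nat.mod_eq_of_lt (Finset.mem_range.1 hy.1)]

theorem R_unram (l : ℕ) (hp : l.Prime) (hl : l ≠ 2) (n : ℕ) (hn : ¬ l ∣ n) (k : ℕ) :
    (R n (l ^ (k + 1)) : ℤ) = 1 + jacobiSym (-(n : ℤ)) l := by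
  induction k with
  | zero => rw [zero_add, pow_one, R_prime l hp hl]
  | succ k ih => rw [R_succ l hp hl n hn, ih]

theorem R_ram_one (l : ℕ) (hp : l.Prime) (n : ℕ) (hn : l ∣ n) : R n l = 1 := by
  rw [R_eq n l hp.pos, Finset.card_eq_one]
  refine ⟨0, ?_⟩
  ext x
  rw [Finset.mem_filter, Finset.mem_range, Finset.mem_singleton]
  constructor
  · rintro ⟨h1, h2⟩
    have h3 : l ∣ x ^ 2 := (Nat.dvd_add_left hn).1 h2
    exact Nat.eq_zero_of_dvd_of_lt (hp.dvd_of_dvd_pow h3) h1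
  · rintro rfl
    exact ⟨hp.pos, by simpa using hn⟩

theorem R_ram (l : ℕ) (hp : l.Prime) (n : ℕ) (hn : l ∣ n) (hn2 : ¬ l ^ 2 ∣ n) (k : ℕ) :
    R n (l ^ (k + 2)) = 0 := by
  rw [R_eq n _ (pow_pos hp.pos _), Finset.card_eq_zero, Finset.filter_eq_empty_iff]
  intro x _ hx
  have h1 : l ^ 2 ∣ x ^ 2 + n := (pow_dvd_pow l (Nat.le_add_left 2 k)).trans hx
  have h2 : l ∣ x ^ 2 := (Nat.dvd_add_left hn).1 ((dvd_pow_self l two_ne_zero).trans h1)
  have h3 : l ^ 2 ∣ x ^ 2 := pow_dvd_pow_of_dvd (hp.dvd_of_dvd_pow h2) 2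
  exact hn2 ((Nat.dvd_add_right h3).1 h1)

theorem R_two_one (n : ℕ) (hn : n % 8 = 3) : R n 2 = 1 := by
  rw [R_eq n 2 two_pos, Finset.card_eq_one]
  refine ⟨1, ?_⟩
  ext x
  rw [Finset.mem_filter, Finset.mem_range, Finset.mem_singleton]
  constructor
  · rintro ⟨h1, h2⟩
    interval_cases x
    · omega
    · rfl
  · rintro rfl
    exact ⟨one_lt_two, by omega⟩

theorem R_two (n : ℕ) (hn : n % 8 = 3) (k : ℕ) : R n (2 ^ (k + 3)) = 0 := by
  rw [R_eq n _ (pow_pos two_pos _), Finset.card_eq_zero, Finset.filter_eq_empty_iff]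
  intro x _ hx
  have h1 : 8 ∣ x ^ 2 + n := by
    have : 2 ^ 3 ∣ x ^ 2 + n := (pow_dvd_pow 2 (Nat.le_add_left 3 k)).trans hx
    simpa using this
  have h2 : x ^ 2 % 8 = 0 ∨ x ^ 2 % 8 = 1 ∨ x ^ 2 % 8 = 4 := by
    have : x % 8 < 8 := Nat.mod_lt _ (by norm_num)
    rw [Nat.pow_mod]
    interval_cases x % 8 <;> simp
  omega

/-- the number of solutions as an arithmetic function -/
noncomputable def RA (n : ℕ) (hn : 0 < n) : ArithmeticFunction ℕ := ⟨R n, R_zero hn⟩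

open Classical in
/-- the indicator function of the squares -/
noncomputable def SQ : ArithmeticFunction ℕ := ⟨fun m => if m ≠ 0 ∧ IsSquare m then 1 else 0, by simp⟩

theorem RA_apply (n : ℕ) (hn : 0 < n) (m : ℕ) : RA n hn m = R n m := rfl

open Classical in
theorem SQ_apply (m : ℕ) : SQ m = if m ≠ 0 ∧ IsSquare m then 1 else 0 := rfl

theorem RA_mult (n : ℕ) (hn : 0 < n) : (RA n hn).IsMultiplicative :=
  ⟨R_one n, fun h => R_mul n h⟩

theorem isSquare_of_mul {a b : ℕ} (h : a.Coprime b) (hs : IsSquare (a * b)) : IsSquare a := by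
  obtain ⟨c, hc⟩ := hs
  rw [← pow_two] at hc
  obtain ⟨d, hd⟩ := exists_eq_pow_of_mul_eq_pow (a := a) (b := b) (c := c) (k := 2)
    (by
      have : gcd a b = 1 := h
      rw [this]
      exact isUnit_one) hc
  exact ⟨d, by rw [hd, pow_two]⟩

theorem SQ_mult : SQ.IsMultiplicative := by
  classical
  rw [IsMultiplicative.iff_ne_zero]
  refine ⟨by rw [SQ_apply]; simp, ?_⟩
  intro m n hm hn h
  rw [SQ_apply, SQ_apply, SQ_apply]
  have h1 : IsSquare (m * n) ↔ IsSquare m ∧ IsSquare n := by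
    refine ⟨fun h2 => ⟨isSquare_of_mul h h2, ?_⟩, fun h2 => h2.1.mul h2.2⟩
    rw [mul_comm] at h2
    exact isSquare_of_mul h.symm h2
  by_cases h2 : IsSquare m <;> by_cases h3 : IsSquare n <;> simp [h1, h2, h3, hm, hn]

theorem SQ_pow (l : ℕ) (hp : l.Prime) (i : ℕ) : SQ (l ^ i) = if Even i then 1 else 0 := by
  classical
  rw [SQ_apply]
  have h1 : IsSquare (l ^ i) ↔ Even i := by
    constructor
    · rintro ⟨r, hr⟩
      have hr0 : r ≠ 0 := by
        rintro rfl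
        exact pow_ne_zero i hp.ne_zero (by simpa using hr)
      have h2 := congrArg (fun x => x.factorization l) hr
      simp only [hp.factorization_pow, Nat.factorization_mul hr0 hr0, Finsupp.single_eq_same,
        Finsupp.add_apply] at h2
      exact ⟨_, h2⟩
    · exact fun h => h.isSquare_pow l
  simp [h1, hp.ne_zero]

/-- the sum over `e` -/
noncomputable def S (n D : ℕ) : ℕ :=
  ∑ e ∈ (range (D + 1)).filter fun e => 0 < e ∧ e ^ 2 ∣ D, R n (D / e ^ 2)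

theorem S_eq (n : ℕ) (hn : 0 < n) (D : ℕ) (hD : 0 < D) : S n D = (SQ * RA n hn) D := by
  classical
  rw [ArithmeticFunction.mul_apply, S]
  have h1 : ∀ x ∈ D.divisorsAntidiagonal, SQ x.1 * RA n hn x.2 =
      if IsSquare x.1 then R n x.2 else 0 := by
    intro x hx
    rw [SQ_apply, RA_apply]
    have := (Nat.mem_divisorsAntidiagonal.1 hx)
    have h2 : x.1 ≠ 0 := by
      intro h
      rw [h, zero_mul] at this
      exact this.2 this.1.symm
    by_cases h3 : IsSquare x.1 <;> simp [h2, h3]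
  rw [Finset.sum_congr rfl h1, ← Finset.sum_filter]
  refine Finset.sum_nbij (fun e => (e ^ 2, D / e ^ 2)) ?_ ?_ ?_ ?_
  · intro e he
    have he := Finset.mem_filter.1 he
    refine Finset.mem_filter.2 ⟨Nat.mem_divisorsAntidiagonal.2 ⟨Nat.mul_div_cancel' he.2.2, hD.ne'⟩,
      ⟨e, pow_two e⟩⟩
  · intro e he e' he' h
    have h2 : e ^ 2 = e' ^ 2 := (Prod.ext_iff.1 h).1
    exact (Nat.pow_left_injective (n := 2) two_ne_zero) h2
  · intro x hx
    have hx := Finset.mem_filter.1 (Finset.mem_coe.1 hx)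
    obtain ⟨e, he⟩ := hx.2
    have h3 := Nat.mem_divisorsAntidiagonal.1 hx.1
    rw [← pow_two] at he
    have he0 : 0 < e := by
      rcases Nat.eq_zero_or_pos e with h | h
      · rw [he, h] at h3
        exact absurd h3.1.symm (by simpa using hD.ne')
      · exact h
    have hdvd : e ^ 2 ∣ D := ⟨x.2, by rw [← he]; exact h3.1.symm⟩
    refine ⟨e, Finset.mem_coe.2 (Finset.mem_filter.2 ⟨Finset.mem_range.2 ?_, he0, hdvd⟩), ?_⟩
    · have := Nat.le_of_dvd hD hdvd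
      nlinarith
    · refine Prod.ext he.symm ?_
      change D / e ^ 2 = x.2
      rw [← h3.1, he]
      exact Nat.mul_div_cancel_left _ (pow_pos he0 2)
  · intro e _
    rfl

theorem S_prod (n : ℕ) (hn : 0 < n) (D : ℕ) (hD : 0 < D) :
    S n D = ∏ l ∈ D.primeFactors, S n (l ^ D.factorization l) := by
  rw [S_eq n hn D hD, IsMultiplicative.multiplicative_factorization _ (SQ_mult.mul (RA_mult n hn))
    hD.ne', Finsupp.prod, Nat.support_factorization]
  refine Finset.prod_congr rfl fun l hl => ?_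
  rw [S_eq n hn _ (pow_pos (Nat.prime_of_mem_primeFactors hl).pos _)]

theorem S_pow (n : ℕ) (hn : 0 < n) (l : ℕ) (hp : l.Prime) (V : ℕ) :
    S n (l ^ V) = ∑ i ∈ range (V + 1), if Even i then R n (l ^ (V - i)) else 0 := by
  rw [S_eq n hn _ (pow_pos hp.pos _), ArithmeticFunction.mul_apply,
    Nat.sum_divisorsAntidiagonal (fun a b => SQ a * RA n hn b), Nat.sum_divisors_prime_pow hp]
  refine Finset.sum_congr rfl fun i hi => ?_
  rw [SQ_pow l hp, RA_apply, Nat.pow_div (Nat.lt_succ_iff.1 (Finset.mem_range.1 hi)) hp.pos]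
  split_ifs <;> simp

theorem S_zero (n : ℕ) (hn : 0 < n) (l : ℕ) (hp : l.Prime) : S n (l ^ 0) = 1 := by
  rw [S_pow n hn l hp, Finset.sum_range_one]
  simp [R_one]

theorem S_one (n : ℕ) (hn : 0 < n) (l : ℕ) (hp : l.Prime) : S n (l ^ 1) = R n l := by
  rw [S_pow n hn l hp]
  simp [Finset.sum_range_succ]

theorem S_step (n : ℕ) (hn : 0 < n) (l : ℕ) (hp : l.Prime) (V : ℕ) :
    S n (l ^ (V + 2)) = S n (l ^ V) + R n (l ^ (V + 2)) := by
  rw [S_pow n hn l hp, S_pow n hn l hp, Finset.sum_range_succ', Finset.sum_range_succ']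
  have h1 : ∀ i ∈ range (V + 1), (if Even (i + 1 + 1) then R n (l ^ (V + 2 - (i + 1 + 1))) else 0) =
      if Even i then R n (l ^ (V - i)) else 0 := by
    intro i _
    have e1 : V + 2 - (i + 1 + 1) = V - i := by omega
    have e2 : Even (i + 1 + 1) ↔ Even i := by
      rw [Nat.even_add_one, Nat.even_add_one, not_not]
    rw [e1]
    simp [e2]
  rw [Finset.sum_congr rfl h1]
  simp

/-- unramified primes -/
theorem S_unram (n : ℕ) (hn : 0 < n) (l : ℕ) (hp : l.Prime) (hl : l ≠ 2) (hln : ¬ l ∣ n) (V : ℕ) :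
    (S n (l ^ V) : ℤ) = ∑ j ∈ range (V + 1), jacobiSym (-(n : ℤ)) l ^ j := by
  have hchi : jacobiSym (-(n : ℤ)) l ^ 2 = 1 := by
    refine jacobiSym.sq_one ?_
    have h1 : Int.gcd (-(n : ℤ)) (l : ℤ) = Nat.gcd n l := by simp [Int.gcd]
    rw [h1]
    exact ((Nat.Prime.coprime_iff_not_dvd hp).2 hln).symm
  induction V using Nat.twoStepInduction with
  | zero => rw [S_zero n hn l hp]; simp
  | one =>
    rw [S_one n hn l hp, R_prime l hp hl]
    simp [Finset.sum_range_succ]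
  | more V ih _ =>
    rw [S_step n hn l hp, Nat.cast_add, ih, R_unram l hp hl n hln,
      Finset.sum_range_succ _ (V + 2), Finset.sum_range_succ _ (V + 1)]
    have h3 : jacobiSym (-(n : ℤ)) l ^ (V + 1) + jacobiSym (-(n : ℤ)) l ^ (V + 2) =
        1 + jacobiSym (-(n : ℤ)) l := by
      rcases Nat.even_or_odd' V with ⟨m, hm | hm⟩
      · rw [hm, pow_succ, pow_add, pow_mul, hchi, one_pow]
        ring
      · rw [hm]
        have e1 : 2 * m + 1 + 1 = 2 * (m + 1) := by ring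
        have e2 : 2 * m + 1 + 2 = 2 * (m + 1) + 1 := by ring
        rw [e1, e2, pow_succ, pow_mul, hchi, one_pow]
        ring
    rw [add_assoc, h3]

/-- ramified primes -/
theorem S_ram (n : ℕ) (hn : 0 < n) (l : ℕ) (hp : l.Prime) (hln : l ∣ n) (hl2 : ¬ l ^ 2 ∣ n)
    (V : ℕ) : S n (l ^ V) = 1 := by
  induction V using Nat.twoStepInduction with
  | zero => exact S_zero n hn l hp
  | one => rw [S_one n hn l hp, R_ram_one l hp n hln]
  | more V ih _ => rw [S_step n hn l hp, ih, R_ram l hp n hln hl2]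

/-- the prime two -/
theorem S_two (n : ℕ) (hn : n % 8 = 3) (k : ℕ) : S n (2 ^ (2 * k + 1)) = 1 := by
  have h0 : 0 < n := by omega
  induction k with
  | zero => exact (S_one n h0 2 Nat.prime_two).trans (R_two_one n hn)
  | succ k ih =>
    have e : 2 * (k + 1) + 1 = (2 * k + 1) + 2 := by ring
    have e' : 2 * k + 1 + 2 = 2 * k + 3 := by ring
    rw [e, S_step n h0 2 Nat.prime_two, ih, e', R_two n hn]

end Pool.Agent.Y155.Z7
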