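import Mathlib
import Pool.Agent.Z700.Defs
import Pool.Agent.Y155.Z7.XCa

/-!
# The number of `(μ, ν)` modulo `n1`
-/

set_option autoImplicit false

namespace Pool.Agent.Y155.Z7

open Finset ArithmeticFunction Pool.Agent.Z700

/-- the equations for `(μ, ν)` modulo `m` -/
def EQ (e : ℕ) (b : ℤ) (D' β γ m : ℕ) (q : ZMod m × ZMod m) : Prop :=
  (e : ZMod m) * q.1 - (b : ZMod m) = 0 ∧ q.1 ^ 2 + (D' : ZMod m) = 0 ∧
    (β : ZMod m) + q.1 * q.2 = 0 ∧ (γ : ZMod m) + q.2 ^ 2 = 0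

/-- the number of solutions `(μ, ν)` modulo `m` -/
noncomputable def C (e : ℕ) (b : ℤ) (D' β γ m : ℕ) : ℕ :=
  Nat.card {q : ZMod m × ZMod m // EQ e b D' β γ m q}

theorem C_zero (e : ℕ) (b : ℤ) (D' β γ : ℕ) (hD : 0 < D') : C e b D' β γ 0 = 0 := by
  unfold C
  have key : ∀ y : ℤ, ¬ (y ^ 2 + (D' : ℤ) = 0) := by
    intro y hy
    have h2 : (0 : ℤ) < D' := by exact_mod_cast hD
    nlinarith [sq_nonneg y]
  have : IsEmpty {q : ZMod 0 × ZMod 0 // EQ e b D' β γ 0 q} := ⟨fun x => key x.1.1 x.2.2.1⟩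
  exact Nat.card_of_isEmpty

theorem C_one (e : ℕ) (b : ℤ) (D' β γ : ℕ) : C e b D' β γ 1 = 1 := by
  unfold C
  rw [Nat.card_eq_one_iff_unique]
  refine ⟨⟨fun a b => Subtype.ext (Prod.ext (Subsingleton.elim _ _) (Subsingleton.elim _ _))⟩,
    ⟨⟨(0, 0), Subsingleton.elim _ _, Subsingleton.elim _ _, Subsingleton.elim _ _,
      Subsingleton.elim _ _⟩⟩⟩

theorem C_mul (e : ℕ) (b : ℤ) (D' β γ : ℕ) {a c : ℕ} (h : a.Coprime c) :
    C e b D' β γ (a * c) = C e b D' β γ a * C e b D' β γ c := by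
  unfold C
  rw [← Nat.card_prod]
  refine Nat.card_congr (Equiv.trans ?_ (Equiv.subtypeProdEquivProd (p := EQ e b D' β γ a)
    (q := EQ e b D' β γ c)))
  refine Equiv.subtypeEquiv (((ZMod.chineseRemainder h).toEquiv.prodCongr
    (ZMod.chineseRemainder h).toEquiv).trans (Equiv.prodProdProdComm _ _ _ _)) fun x => ?_
  have hz : ∀ y : ZMod (a * c), y = 0 ↔ (ZMod.chineseRemainder h y).1 = 0 ∧
      (ZMod.chineseRemainder h y).2 = 0 := by
    intro y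
    rw [← map_eq_zero_iff _ (ZMod.chineseRemainder h).injective, Prod.ext_iff]
    rfl
  unfold EQ
  rw [hz, hz (x.1 ^ 2 + _), hz (_ + x.1 * x.2), hz (_ + x.2 ^ 2)]
  simp only [map_sub, map_add, map_mul, map_pow, map_natCast, map_intCast, Prod.fst_add,
    Prod.snd_add, Prod.fst_sub, Prod.snd_sub, Prod.fst_mul, Prod.snd_mul, Prod.pow_fst,
    Prod.pow_snd, Prod.fst_natCast, Prod.snd_natCast, Prod.fst_intCast, Prod.snd_intCast,
    Equiv.trans_apply, Equiv.prodCongr_apply, Equiv.prodProdProdComm_apply, Prod.map_apply,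
    RingEquiv.toEquiv_eq_coe, EquivLike.coe_coe]
  tauto

theorem C_prod (e : ℕ) (b : ℤ) (D' β γ : ℕ) (hD : 0 < D') {n : ℕ} (hn : Squarefree n) :
    C e b D' β γ n = ∏ l ∈ n.primeFactors, C e b D' β γ l := by
  have h1 : IsMultiplicative (⟨C e b D' β γ, C_zero e b D' β γ hD⟩ : ArithmeticFunction ℕ) :=
    ⟨C_one e b D' β γ, fun h => C_mul e b D' β γ h⟩
  exact (h1.prod_primeFactors hn).symm

/-- counting residues -/
theorem C_eq (e : ℕ) (b : ℤ) (D' β γ m : ℕ) (hm : 0 < m) :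
    C e b D' β γ m = ((range m ×ˢ range m).filter fun p : ℕ × ℕ =>
      (m : ℤ) ∣ e * p.1 - b ∧ m ∣ p.1 ^ 2 + D' ∧ m ∣ β + p.1 * p.2 ∧ m ∣ γ + p.2 ^ 2).card := by
  classical
  have : NeZero m := ⟨hm.ne'⟩
  have h0 : ∀ p : ℕ × ℕ, EQ e b D' β γ m ((p.1 : ZMod m), (p.2 : ZMod m)) ↔
      ((m : ℤ) ∣ e * p.1 - b ∧ m ∣ p.1 ^ 2 + D' ∧ m ∣ β + p.1 * p.2 ∧ m ∣ γ + p.2 ^ 2) := by
    intro p
    unfold EQ
    rw [← ZMod.intCast_zmod_eq_zero_iff_dvd, ← ZMod.natCast_eq_zero_iff,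
      ← ZMod.natCast_eq_zero_iff, ← ZMod.natCast_eq_zero_iff]
    push_cast
    rfl
  unfold C
  rw [Nat.card_eq_fintype_card, Fintype.card_subtype]
  refine (Finset.card_nbij' (fun x : ℕ × ℕ => ((x.1 : ZMod m), (x.2 : ZMod m)))
    (fun x : ZMod m × ZMod m => (x.1.val, x.2.val)) ?_ ?_ ?_ ?_).symm
  · intro x hx
    have hx := Finset.mem_filter.1 (Finset.mem_coe.1 hx)
    exact Finset.mem_coe.2 (Finset.mem_filter.2 ⟨Finset.mem_univ _, (h0 x).2 hx.2⟩)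
  · intro x hx
    have hx := Finset.mem_filter.1 (Finset.mem_coe.1 hx)
    refine Finset.mem_coe.2 (Finset.mem_filter.2 ⟨Finset.mem_product.2
      ⟨Finset.mem_range.2 (ZMod.val_lt _), Finset.mem_range.2 (ZMod.val_lt _)⟩, ?_⟩)
    refine (h0 (x.1.val, x.2.val)).1 ?_
    change EQ e b D' β γ m ((x.1.val : ZMod m), (x.2.val : ZMod m))
    rw [ZMod.natCast_zmod_val, ZMod.natCast_zmod_val]
    exact hx.2
  · intro x hx
    have hx := Finset.mem_product.1 (Finset.mem_filter.1 (Finset.mem_coe.1 hx)).1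
    exact Prod.ext (ZMod.val_cast_of_lt (Finset.mem_range.1 hx.1))
      (ZMod.val_cast_of_lt (Finset.mem_range.1 hx.2))
  · intro x _
    exact Prod.ext (ZMod.natCast_zmod_val _) (ZMod.natCast_zmod_val _)

end Pool.Agent.Y155.Z7
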