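import Mathlib
import Pool.Agent.Z700.Defs
import Pool.Agent.Y155.Z7.XCc

/-!
# Counting the parameters: product of local factors
-/

set_option autoImplicit false

namespace Pool.Agent.Y155.Z7

open Finset ArithmeticFunction Pool.Agent.Z700

/-- the pairs `(e, β)` -/
def TT (n1 D : ℕ) : Finset (ℕ × ℕ) :=
  ((range (D + 1)).filter fun e => 0 < e ∧ e ^ 2 ∣ D).biUnion fun e =>
    ((range (D / e ^ 2)).filter fun β => (D / e ^ 2) ∣ β ^ 2 + n1).image fun β => (e, β)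

theorem mem_TT (n1 D : ℕ) (t : ℕ × ℕ) : t ∈ TT n1 D ↔ t.1 < D + 1 ∧ 0 < t.1 ∧ t.1 ^ 2 ∣ D ∧
    t.2 < D / t.1 ^ 2 ∧ (D / t.1 ^ 2) ∣ t.2 ^ 2 + n1 := by
  unfold TT
  rw [Finset.mem_biUnion]
  constructor
  · rintro ⟨e, he, ht⟩
    obtain ⟨β, hβ, rfl⟩ := Finset.mem_image.1 ht
    have he := Finset.mem_filter.1 he
    have hβ := Finset.mem_filter.1 hβ
    exact ⟨Finset.mem_range.1 he.1, he.2.1, he.2.2, Finset.mem_range.1 hβ.1, hβ.2⟩
  · rintro ⟨h1, h2, h3, h4, h5⟩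
    exact ⟨t.1, Finset.mem_filter.2 ⟨Finset.mem_range.2 h1, h2, h3⟩, Finset.mem_image.2
      ⟨t.2, Finset.mem_filter.2 ⟨Finset.mem_range.2 h4, h5⟩, rfl⟩⟩

theorem card_TT (n1 D : ℕ) (hD : 0 < D) : (TT n1 D).card = S n1 D := by
  unfold TT S
  rw [Finset.card_biUnion]
  · refine Finset.sum_congr rfl fun e he => ?_
    have he := Finset.mem_filter.1 he
    rw [R_eq n1 _ (Nat.div_pos (Nat.le_of_dvd hD he.2.2) (pow_pos he.2.1 2))]
    exact Finset.card_image_of_injective _ fun x y h => (Prod.ext_iff.1 h).2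
  · intro e _ e' _ hee
    rw [Function.onFun, Finset.disjoint_left]
    intro t ht ht'
    obtain ⟨β, _, rfl⟩ := Finset.mem_image.1 ht
    obtain ⟨β', _, h⟩ := Finset.mem_image.1 ht'
    exact hee (Prod.ext_iff.1 h).1.symm

/-- the fibres -/
theorem fib (n1 : ℕ) (hn1 : 0 < n1) (b : ℤ) (D : ℕ) (t : ℕ × ℕ) (ht : t ∈ TT n1 D) :
    ((XX n1 b D).filter fun q => (q.1, q.2.2.1) = t).card =
      C t.1 b (D / t.1 ^ 2) t.2 ((n1 + t.2 ^ 2) / (D / t.1 ^ 2)) n1 := by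
  rw [C_eq _ _ _ _ _ _ hn1]
  obtain ⟨h1, h2, h3, h4, h5⟩ := (mem_TT n1 D t).1 ht
  refine Finset.card_nbij' (fun q => (q.2.1, q.2.2.2)) (fun p => (t.1, p.1, t.2, p.2)) ?_ ?_ ?_ ?_
  · intro q hq
    have hq := Finset.mem_filter.1 (Finset.mem_coe.1 hq)
    obtain ⟨hq1, hq2⟩ := hq
    unfold XX at hq1
    have hq1 := Finset.mem_filter.1 hq1
    have hq3 := Finset.mem_product.1 hq1.1
    have hq4 := Finset.mem_product.1 hq3.2
    have hq5 := Finset.mem_product.1 hq4.2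
    rw [← hq2]
    exact Finset.mem_coe.2 (Finset.mem_filter.2 ⟨Finset.mem_product.2 ⟨hq4.1, hq5.2⟩,
      hq1.2.2.2.2.1, hq1.2.2.2.2.2.1, hq1.2.2.2.2.2.2.2.1, hq1.2.2.2.2.2.2.2.2⟩)
  · intro p hp
    have hp := Finset.mem_filter.1 (Finset.mem_coe.1 hp)
    have hp1 := Finset.mem_product.1 hp.1
    refine Finset.mem_coe.2 (Finset.mem_filter.2 ⟨?_, rfl⟩)
    unfold XX
    refine Finset.mem_filter.2 ⟨Finset.mem_product.2 ⟨Finset.mem_range.2 h1, Finset.mem_product.2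
      ⟨hp1.1, Finset.mem_product.2 ⟨Finset.mem_range.2 (h4.trans_le (Nat.div_le_self _ _)),
        hp1.2⟩⟩⟩, h2, h3, h4, hp.2.1, hp.2.2.1, h5, hp.2.2.2.1, hp.2.2.2.2⟩
  · intro q hq
    have hq := Finset.mem_filter.1 (Finset.mem_coe.1 hq)
    obtain ⟨_, hq2⟩ := hq
    rw [← hq2]
  · intro p _
    rfl

/-- XC -/
theorem t_XC : S_XC := by
  intro n1 n2 b D hs m1 m2 hb hD hDD hodd
  have hn1 : 0 < n1 := by omega
  have hdvd : ∀ l, l.Prime → l ∣ n1 → l ≠ 2 ∧ ¬ l ^ 2 ∣ n1 := by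
    intro l hp hl
    refine ⟨?_, ?_⟩
    · rintro rfl
      omega
    · intro h
      rw [pow_two] at h
      exact hp.one_lt.ne' (Nat.isUnit_iff.1 (hs l h))
  -- the fibres
  have h1 : ∀ t ∈ TT n1 D, (((XX n1 b D).filter fun q => (q.1, q.2.2.1) = t).card : ℤ) =
      ∏ l ∈ n1.primeFactors, if l ∣ D then 1 + hh n1 D l else 1 := by
    intro t ht
    obtain ⟨g1, g2, g3, g4, g5⟩ := (mem_TT n1 D t).1 ht
    have hD' : 0 < D / t.1 ^ 2 := Nat.div_pos (Nat.le_of_dvd hD g3) (pow_pos g2 2)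
    rw [fib n1 hn1 b D t ht, C_prod _ _ _ _ _ hD' hs, Nat.cast_prod]
    refine Finset.prod_congr rfl fun l hl => ?_
    have hl1 := Nat.prime_of_mem_primeFactors hl
    have hl2 := Nat.dvd_of_mem_primeFactors hl
    refine C_local (n2 := n2) hl1 (hdvd l hl1 hl2).1 hl2 (hdvd l hl1 hl2).2 hD hDD
      (Nat.mul_div_cancel' g3).symm ?_
    rw [Nat.mul_div_cancel' (by rw [add_comm]; exact g5), add_comm]
  have h2 : ((XX n1 b D).card : ℤ) = (TT n1 D).card *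
      ∏ l ∈ n1.primeFactors, (if l ∣ D then 1 + hh n1 D l else 1) := by
    rw [Finset.card_eq_sum_card_fiberwise (f := fun q => (q.1, q.2.2.1)) (t := TT n1 D), Nat.cast_sum,
      Finset.sum_congr rfl h1, Finset.sum_const, nsmul_eq_mul]
    intro q hq
    have hq := Finset.mem_coe.1 hq
    unfold XX at hq
    have hq := Finset.mem_filter.1 hq
    have hq3 := Finset.mem_product.1 hq.1
    exact Finset.mem_coe.2 ((mem_TT n1 D _).2 ⟨Finset.mem_range.1 hq3.1, hq.2.1, hq.2.2.1,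
      hq.2.2.2.1, hq.2.2.2.2.2.2.1⟩)
  -- the sum over `e`
  have h3 : ((S n1 D : ℕ) : ℤ) = ∏ l ∈ D.primeFactors.erase 2,
      (if l ∣ n1 then 1 else ∑ j ∈ range (D.factorization l + 1), (jacobiSym (-(n1 : ℤ)) l) ^ j) := by
    have h2D : 2 ∈ D.primeFactors := by
      rw [← Nat.support_factorization, Finsupp.mem_support_iff]
      intro h
      rw [h] at hodd
      exact absurd hodd (by decide)
    rw [S_prod n1 hn1 D hD, ← Finset.mul_prod_erase _ _ h2D]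
    obtain ⟨k, hk⟩ := hodd
    rw [hk, S_two n1 m1 k, one_mul, Nat.cast_prod]
    refine Finset.prod_congr rfl fun l hl => ?_
    have hl0 := Finset.mem_erase.1 hl
    have hl1 := Nat.prime_of_mem_primeFactors hl0.2
    split_ifs with h
    · rw [S_ram n1 hn1 l hl1 h (hdvd l hl1 h).2, Nat.cast_one]
    · exact S_unram n1 hn1 l hl1 hl0.1 h _
  have h4 : ∏ l ∈ n1.primeFactors, (if l ∣ D then 1 + hh n1 D l else 1) =
      ∏ l ∈ D.primeFactors.erase 2, (if l ∣ n1 then 1 + hh n1 D l else 1) := by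
    rw [← Finset.prod_filter, ← Finset.prod_filter]
    refine Finset.prod_congr ?_ fun _ _ => rfl
    ext l
    rw [Finset.mem_filter, Finset.mem_filter, Finset.mem_erase, Nat.mem_primeFactors,
      Nat.mem_primeFactors]
    constructor
    · rintro ⟨⟨a1, a2, _⟩, a4⟩
      exact ⟨⟨(hdvd l a1 a2).1, a1, a4, hD.ne'⟩, a2⟩
    · rintro ⟨⟨_, a1, a4, _⟩, a2⟩
      exact ⟨⟨a1, a2, hn1.ne'⟩, a4⟩
  rw [h2, card_TT n1 D hD, h3, h4, ← Finset.prod_mul_distrib]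
  refine Finset.prod_congr rfl fun l _ => ?_
  unfold fac
  split_ifs with h
  · rw [one_mul]
  · rw [mul_one]

end Pool.Agent.Y155.Z7
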